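import Pool.Agent.Y969.SM.Stm2

set_option autoImplicit false

/-! Project SX, job A1: comparison of twisted divisor sums with weights. One prime at a time; the steps
`m -> p m` are made with the Lipschitz property of the weights. -/

namespace Pool.Agent.Y901.SX

open Finset
open Pool.Agent.Y969.SM

noncomputable section

/-- the data -/
structure Dat where
  M : ℕ
  L : ℝ
  f : ℕ → ℝ
  g : ℕ → ℝ

/-- admissible data -/
def Ok (K : ℝ) (D : Dat) : Prop :=
  1 ≤ D.M ∧ 1 ≤ D.L ∧ Real.log D.M ≤ D.L ∧ Wt K D.L D.M D.f ∧ Wt K D.L D.M D.g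

/-- the quantities `O (L^3)` -/
def OO (K : ℝ) : Submodule ℝ (Dat → ℝ) where
  carrier := {F | ∃ C : ℝ, 0 ≤ C ∧ ∀ D, Ok K D → |F D| ≤ C * D.L ^ 3}
  zero_mem' := ⟨0, le_rfl, fun D _ => by simp⟩
  add_mem' := by
    rintro F G ⟨C, hC, h⟩ ⟨C', hC', h'⟩
    refine ⟨C + C', add_nonneg hC hC', fun D hD => ?_⟩
    have h1 := h D hD
    have h2 := h' D hD
    calc |(F + G) D| ≤ |F D| + |G D| := abs_add_le _ _
      _ ≤ (C + C') * D.L ^ 3 := by linarith
  smul_mem' := by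
    rintro c F ⟨C, hC, h⟩
    refine ⟨|c| * C, by positivity, fun D hD => ?_⟩
    have h1 := h D hD
    calc |(c • F) D| = |c| * |F D| := by rw [Pi.smul_apply, smul_eq_mul, abs_mul]
      _ ≤ |c| * (C * D.L ^ 3) := mul_le_mul_of_nonneg_left h1 (abs_nonneg c)
      _ = _ := by ring

theorem mem_OO {K : ℝ} {F : Dat → ℝ} :
    F ∈ OO K ↔ ∃ C : ℝ, 0 ≤ C ∧ ∀ D, Ok K D → |F D| ≤ C * D.L ^ 3 := Iff.rfl

/-- the weighted double sums -/
def SU (a : ℕ → ℕ → ℝ) (D : Dat) : ℝ :=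
  ∑ m ∈ Icc 1 D.M, ∑ n ∈ Icc 1 D.M, D.f m * D.g n * a m n

theorem SU_congr {a b : ℕ → ℕ → ℝ} (h : ∀ m n, 1 ≤ m → 1 ≤ n → a m n = b m n) : SU a = SU b := by
  funext D
  unfold SU
  refine sum_congr rfl fun m hm => sum_congr rfl fun n hn => ?_
  rw [h m n (mem_Icc.1 hm).1 (mem_Icc.1 hn).1]

theorem SU_add (a b : ℕ → ℕ → ℝ) : SU (fun m n => a m n + b m n) = SU a + SU b := by
  funext D
  simp only [SU, Pi.add_apply, mul_add, sum_add_distrib]

theorem SU_smul (c : ℝ) (a : ℕ → ℕ → ℝ) : SU (fun m n => c * a m n) = c • SU a := by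
  funext D
  simp only [SU, Pi.smul_apply, smul_eq_mul, mul_sum]
  refine sum_congr rfl fun m _ => sum_congr rfl fun n _ => ?_
  ring

/-- the number of divisors -/
def dd (n : ℕ) : ℝ := (n.divisors.card : ℝ)

theorem dd_nonneg (n : ℕ) : 0 ≤ dd n := Nat.cast_nonneg _

theorem dd_mul_le (a b : ℕ) : dd (a * b) ≤ dd a * dd b := by
  unfold dd
  rw [Nat.divisors_mul]
  exact_mod_cast Finset.card_mul_le

theorem dd_dvd {a b : ℕ} (hb : b ≠ 0) (h : a ∣ b) : dd a ≤ dd b := by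
  unfold dd
  exact_mod_cast Finset.card_le_card (Nat.divisors_subset_of_dvd hb h)

theorem dd_aux {p k : ℕ} (hp : p.Prime) (hk : ¬ p ∣ k) (e : ℕ) : dd (p ^ e * k) = (e + 1) * dd k := by
  unfold dd
  have h1 : Nat.Coprime (p ^ e) k := Nat.Coprime.pow_left _ ((Nat.Prime.coprime_iff_not_dvd hp).2 hk)
  rw [Nat.Coprime.card_divisors_mul h1, Nat.divisors_prime_pow hp, card_map, card_range]
  push_cast
  ring

theorem dd_pow {p : ℕ} (hp : p.Prime) (k a : ℕ) : dd (p ^ a * k) = dd k + a * (dd (p * k) - dd k) := by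
  rcases Nat.eq_zero_or_pos k with rfl | hk
  · simp [dd]
  · obtain ⟨v, k', hk', rfl⟩ := Nat.exists_eq_pow_mul_and_not_dvd hk.ne' p hp.ne_one
    have h1 : p ^ a * (p ^ v * k') = p ^ (a + v) * k' := by rw [pow_add]; ring
    have h2 : p * (p ^ v * k') = p ^ (v + 1) * k' := by rw [pow_succ]; ring
    rw [h1, h2, dd_aux hp hk', dd_aux hp hk', dd_aux hp hk']
    push_cast
    ring

theorem dd_two {p k : ℕ} (hp : p.Prime) (hk : ¬ p ∣ k) : dd (p * k) = 2 * dd k := by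
  have h := dd_aux hp hk 1
  rw [pow_one] at h
  rw [h]
  push_cast
  ring

theorem dd_prime {p : ℕ} (hp : p.Prime) : dd p = 2 := by
  have h := dd_two hp (show ¬ p ∣ 1 from fun h => hp.one_lt.not_ge (Nat.le_of_dvd one_pos h))
  rw [mul_one] at h
  rw [h]
  simp [dd]

/-- the harmonic sum -/
theorem harm_le (M : ℕ) : ∑ m ∈ Icc 1 M, ((m : ℝ))⁻¹ ≤ 1 + Real.log M := by
  have h1 := harmonic_le_one_add_log M
  have h2 : ((harmonic M : ℚ) : ℝ) = ∑ m ∈ Icc 1 M, ((m : ℝ))⁻¹ := by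
    rw [harmonic_eq_sum_Icc]
    push_cast
    rfl
  rwa [h2] at h1

/-- the sum of `d (m) / m` -/
theorem dsum_le (M : ℕ) : ∑ m ∈ Icc 1 M, dd m / m ≤ (1 + Real.log M) ^ 2 := by
  classical
  have h1 : ∀ m ∈ Icc 1 M, dd m / m ≤
      ∑ x ∈ Icc 1 M ×ˢ Icc 1 M, if x.1 * x.2 = m then ((x.1 : ℝ))⁻¹ * ((x.2 : ℝ))⁻¹ else 0 := by
    intro m hm
    obtain ⟨hm1, hm2⟩ := mem_Icc.1 hm
    rw [← sum_filter]
    have h2 : ∀ x ∈ (Icc 1 M ×ˢ Icc 1 M).filter (fun x => x.1 * x.2 = m),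
        ((x.1 : ℝ))⁻¹ * ((x.2 : ℝ))⁻¹ = ((m : ℝ))⁻¹ := by
      intro x hx
      rw [← (mem_filter.1 hx).2, ← mul_inv]
      push_cast
      rfl
    rw [sum_congr rfl h2, sum_const, nsmul_eq_mul, div_eq_mul_inv]
    refine mul_le_mul_of_nonneg_right ?_ (by positivity)
    unfold dd
    have h3 : m.divisors.card ≤ ((Icc 1 M ×ˢ Icc 1 M).filter (fun x => x.1 * x.2 = m)).card := by
      refine card_le_card_of_injOn (fun a => (a, m / a)) (fun a ha => ?_) (fun a _ b _ hab => ?_)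
      · have ha1 := (Nat.mem_divisors.1 (mem_coe.1 ha)).1
        have h4 : a * (m / a) = m := Nat.mul_div_cancel' ha1
        have h5 : 1 ≤ a := Nat.pos_of_dvd_of_pos ha1 hm1
        have h6 : 1 ≤ m / a := Nat.div_pos (Nat.le_of_dvd hm1 ha1) h5
        refine mem_coe.2 (mem_filter.2 ⟨mem_product.2 ⟨mem_Icc.2 ⟨h5, ?_⟩, mem_Icc.2 ⟨h6, ?_⟩⟩, h4⟩)
        · exact (Nat.le_of_dvd hm1 ha1).trans hm2
        · exact (Nat.div_le_self m a).trans hm2
      · exact (Prod.mk.inj hab).1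
    exact_mod_cast h3
  calc ∑ m ∈ Icc 1 M, dd m / m ≤ ∑ m ∈ Icc 1 M,
      ∑ x ∈ Icc 1 M ×ˢ Icc 1 M, (if x.1 * x.2 = m then ((x.1 : ℝ))⁻¹ * ((x.2 : ℝ))⁻¹ else 0) :=
        sum_le_sum h1
    _ = ∑ x ∈ Icc 1 M ×ˢ Icc 1 M, ∑ m ∈ Icc 1 M,
        (if x.1 * x.2 = m then ((x.1 : ℝ))⁻¹ * ((x.2 : ℝ))⁻¹ else 0) := sum_comm
    _ ≤ ∑ x ∈ Icc 1 M ×ˢ Icc 1 M, ((x.1 : ℝ))⁻¹ * ((x.2 : ℝ))⁻¹ := by
        refine sum_le_sum fun x _ => ?_
        rw [sum_ite_eq]
        split_ifs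
        · exact le_rfl
        · positivity
    _ = (∑ m ∈ Icc 1 M, ((m : ℝ))⁻¹) ^ 2 := by
        rw [sum_product, pow_two, sum_mul_sum]
    _ ≤ (1 + Real.log M) ^ 2 :=
        pow_le_pow_left₀ (sum_nonneg fun m _ => by positivity) (harm_le M) 2

/-- bounded by the divisor functions -/
def Bd (a : ℕ → ℕ → ℝ) : Prop :=
  ∃ C : ℝ, 0 ≤ C ∧ ∀ m n, 1 ≤ m → 1 ≤ n → |a m n| ≤ C * (dd m / m * (dd n / n))

/-- the multiples of `p` -/
theorem mult_sum {M p : ℕ} (hp : 1 ≤ p) (u : ℕ → ℝ) (hu : ∀ m, M < m → u m = 0) :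
    ∑ m ∈ Icc 1 M, (if p ∣ m then u m else 0) = ∑ m ∈ Icc 1 M, u (p * m) := by
  classical
  rw [← sum_filter]
  have h1 : ∑ m ∈ Icc 1 M, u (p * m) = ∑ m ∈ (Icc 1 M).filter (fun m => p * m ≤ M), u (p * m) := by
    rw [sum_filter]
    refine sum_congr rfl fun m _ => ?_
    split_ifs with h
    · rfl
    · exact hu _ (not_le.1 h)
  rw [h1]
  symm
  refine sum_bij (fun m _ => p * m) ?_ ?_ ?_ ?_
  · intro m hm
    obtain ⟨h2, h3⟩ := mem_filter.1 hm
    have h4 := (mem_Icc.1 h2).1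
    exact mem_filter.2 ⟨mem_Icc.2 ⟨Nat.mul_pos hp h4, h3⟩, dvd_mul_right _ _⟩
  · intro a _ b _ hab
    exact Nat.eq_of_mul_eq_mul_left hp hab
  · intro k hk
    obtain ⟨h2, c, rfl⟩ := mem_filter.1 hk
    obtain ⟨h4, h5⟩ := mem_Icc.1 h2
    have hc : 1 ≤ c := Nat.pos_of_ne_zero fun h => by simp [h] at h4
    refine ⟨c, mem_filter.2 ⟨mem_Icc.2 ⟨hc, ?_⟩, h5⟩, rfl⟩
    exact (Nat.le_mul_of_pos_left c hp).trans h5
  · intro m _
    rfl

theorem dS_le {K : ℝ} {D : Dat} (hD : Ok K D) :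
    ∑ m ∈ Icc 1 D.M, ∑ n ∈ Icc 1 D.M, dd m / m * (dd n / n) ≤ 16 * D.L ^ 4 := by
  obtain ⟨h1, h2, h3, -, -⟩ := hD
  rw [← sum_mul_sum]
  have h4 := dsum_le D.M
  have h0 : 0 ≤ Real.log D.M := Real.log_natCast_nonneg _
  have h5 : (1 + Real.log D.M) ^ 2 ≤ (2 * D.L) ^ 2 := pow_le_pow_left₀ (by linarith) (by linarith) 2
  have h6 : ∑ m ∈ Icc 1 D.M, dd m / m ≤ 4 * D.L ^ 2 := by nlinarith
  have h7 : 0 ≤ ∑ m ∈ Icc 1 D.M, dd m / m :=
    sum_nonneg fun m _ => div_nonneg (dd_nonneg m) (Nat.cast_nonneg m)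
  calc (∑ m ∈ Icc 1 D.M, dd m / m) * ∑ n ∈ Icc 1 D.M, dd n / n ≤ (4 * D.L ^ 2) * (4 * D.L ^ 2) :=
        mul_le_mul h6 h6 h7 (by positivity)
    _ = _ := by ring

/-- the shift in the first variable -/
theorem shift1 {K : ℝ} (hK : 0 ≤ K) {p : ℕ} (hp : 1 ≤ p) {a : ℕ → ℕ → ℝ} (ha : Bd a) :
    SU a - SU (fun m n => if p ∣ m then 0 else a m n) - SU (fun m n => a (p * m) n) ∈ OO K := by
  obtain ⟨C, hC, ha⟩ := ha
  have hp1 : (1 : ℝ) ≤ p := by exact_mod_cast hp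
  have hlog : 0 ≤ Real.log p := Real.log_natCast_nonneg _
  have hdp : 0 ≤ dd p := dd_nonneg p
  rw [mem_OO]
  refine ⟨K * Real.log p * (C * dd p * 16), by positivity, fun D hD => ?_⟩
  obtain ⟨hM, hL, hlM, ⟨f1, f2, f3⟩, ⟨g1, g2, g3⟩⟩ := hD
  have hL0 : 0 < D.L := by linarith
  -- the sum over the multiples
  have e1 : SU a D - SU (fun m n => if p ∣ m then 0 else a m n) D =
      ∑ m ∈ Icc 1 D.M, if p ∣ m then D.f m * ∑ n ∈ Icc 1 D.M, D.g n * a m n else 0 := by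
    unfold SU
    rw [← sum_sub_distrib]
    refine sum_congr rfl fun m _ => ?_
    by_cases h : p ∣ m
    · simp only [if_pos h, mul_zero, sum_const_zero, sub_zero, mul_sum]
      exact sum_congr rfl fun n _ => by ring
    · simp only [if_neg h, sub_self]
  have e2 := mult_sum (M := D.M) hp (fun m => D.f m * ∑ n ∈ Icc 1 D.M, D.g n * a m n)
    (fun m hm => by simp [f2 m hm])
  have e3 : SU (fun m n => a (p * m) n) D =
      ∑ m ∈ Icc 1 D.M, D.f m * ∑ n ∈ Icc 1 D.M, D.g n * a (p * m) n := by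
    unfold SU
    refine sum_congr rfl fun m _ => ?_
    rw [mul_sum]
    exact sum_congr rfl fun n _ => by ring
  have e4 : (SU a - SU (fun m n => if p ∣ m then 0 else a m n) - SU (fun m n => a (p * m) n)) D =
      ∑ m ∈ Icc 1 D.M, (D.f (p * m) - D.f m) * ∑ n ∈ Icc 1 D.M, D.g n * a (p * m) n := by
    rw [Pi.sub_apply, Pi.sub_apply, e1, e2, e3, ← sum_sub_distrib]
    exact sum_congr rfl fun m _ => by ring
  rw [e4]
  have e5 : ∀ m ∈ Icc 1 D.M, |∑ n ∈ Icc 1 D.M, D.g n * a (p * m) n| ≤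
      ∑ n ∈ Icc 1 D.M, C * dd p * (dd m / m * (dd n / n)) := by
    intro m hm
    refine (abs_sum_le_sum_abs _ _).trans (sum_le_sum fun n hn => ?_)
    have hm1 := (mem_Icc.1 hm).1
    have hn1 := (mem_Icc.1 hn).1
    have hm1' : (1 : ℝ) ≤ m := by exact_mod_cast hm1
    have hdm := dd_nonneg m
    have hdn := dd_nonneg n
    have h1 := ha (p * m) n (Nat.mul_pos hp hm1) hn1
    have h2 : dd (p * m) / ((p * m : ℕ) : ℝ) ≤ dd p * (dd m / m) := by
      rw [← mul_div_assoc]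
      push_cast
      refine div_le_div₀ (by positivity) (dd_mul_le p m) (by positivity) ?_
      nlinarith
    rw [abs_mul]
    calc |D.g n| * |a (p * m) n| ≤ 1 * (C * (dd (p * m) / ((p * m : ℕ) : ℝ) * (dd n / n))) :=
          mul_le_mul (g1 n) h1 (abs_nonneg _) zero_le_one
      _ ≤ 1 * (C * ((dd p * (dd m / m)) * (dd n / n))) := by
          rw [one_mul, one_mul]
          refine mul_le_mul_of_nonneg_left ?_ hC
          exact mul_le_mul_of_nonneg_right h2 (by positivity)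
      _ = _ := by ring
  have e6 := dS_le (K := K) (D := D) ⟨hM, hL, hlM, ⟨f1, f2, f3⟩, ⟨g1, g2, g3⟩⟩
  calc |∑ m ∈ Icc 1 D.M, (D.f (p * m) - D.f m) * ∑ n ∈ Icc 1 D.M, D.g n * a (p * m) n| ≤
      ∑ m ∈ Icc 1 D.M, |(D.f (p * m) - D.f m) * ∑ n ∈ Icc 1 D.M, D.g n * a (p * m) n| :=
        abs_sum_le_sum_abs _ _
    _ ≤ ∑ m ∈ Icc 1 D.M, K * Real.log p / D.L *
        ∑ n ∈ Icc 1 D.M, C * dd p * (dd m / m * (dd n / n)) := by
        refine sum_le_sum fun m hm => ?_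
        rw [abs_mul]
        exact mul_le_mul (f3 p m hp (mem_Icc.1 hm).1) (e5 m hm) (abs_nonneg _) (by positivity)
    _ = K * Real.log p / D.L * (C * dd p) *
        ∑ m ∈ Icc 1 D.M, ∑ n ∈ Icc 1 D.M, dd m / m * (dd n / n) := by
        simp only [mul_sum]
        exact sum_congr rfl fun m _ => sum_congr rfl fun n _ => by ring
    _ ≤ K * Real.log p / D.L * (C * dd p) * (16 * D.L ^ 4) :=
        mul_le_mul_of_nonneg_left e6 (by positivity)
    _ = K * Real.log p * (C * dd p * 16) * D.L ^ 3 := by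
        field_simp

/-- the data with the weights exchanged -/
def sw (D : Dat) : Dat := ⟨D.M, D.L, D.g, D.f⟩

theorem SU_sw (a : ℕ → ℕ → ℝ) (D : Dat) : SU a D = SU (fun m n => a n m) (sw D) := by
  unfold SU sw
  rw [sum_comm]
  exact sum_congr rfl fun m _ => sum_congr rfl fun n _ => by ring

theorem Bd.swap {a : ℕ → ℕ → ℝ} (ha : Bd a) : Bd (fun m n => a n m) := by
  obtain ⟨C, hC, ha⟩ := ha
  refine ⟨C, hC, fun m n hm hn => ?_⟩
  rw [mul_comm (dd m / m)]
  exact ha n m hn hm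

/-- the shift in the second variable -/
theorem shift2 {K : ℝ} (hK : 0 ≤ K) {p : ℕ} (hp : 1 ≤ p) {a : ℕ → ℕ → ℝ} (ha : Bd a) :
    SU a - SU (fun m n => if p ∣ n then 0 else a m n) - SU (fun m n => a m (p * n)) ∈ OO K := by
  obtain ⟨C, hC, h⟩ := mem_OO.1 (shift1 hK hp ha.swap)
  rw [mem_OO]
  refine ⟨C, hC, fun D hD => ?_⟩
  have hD' : Ok K (sw D) := ⟨hD.1, hD.2.1, hD.2.2.1, hD.2.2.2.2, hD.2.2.2.1⟩
  have h1 := h (sw D) hD'
  rw [Pi.sub_apply, Pi.sub_apply] at h1 ⊢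
  rw [SU_sw a, SU_sw (fun m n => if p ∣ n then 0 else a m n), SU_sw (fun m n => a m (p * n))]
  exact h1

/-- the weights as a function of the product -/
def GG (h l N : ℕ) : ℝ := if l ∣ N * h then dd (N * h / l) / ((N : ℝ) * h) else 0

/-- the increment in the exponent of `p` -/
def GP (p h l N : ℕ) : ℝ :=
  if l ∣ N * h then (dd (p * (N * h / l)) - dd (N * h / l)) / ((N : ℝ) * h) else 0

theorem GG_pow {p h l : ℕ} (hp : p.Prime) (hpl : ¬ p ∣ l) (a N : ℕ) :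
    GG h l (p ^ a * N) = (1 / (p : ℝ)) ^ a * (GG h l N + a * GP p h l N) := by
  have hc : Nat.Coprime l (p ^ a) := (Nat.Coprime.pow_left _ ((Nat.Prime.coprime_iff_not_dvd hp).2 hpl)).symm
  have hiff : l ∣ p ^ a * N * h ↔ l ∣ N * h := by
    rw [mul_assoc]
    exact ⟨fun H => hc.dvd_of_dvd_mul_left H, fun H => Dvd.dvd.mul_left H _⟩
  unfold GG GP
  by_cases H : l ∣ N * h
  · rw [if_pos H, if_pos H, if_pos (hiff.2 H), mul_assoc (p ^ a) N h, Nat.mul_div_assoc _ H,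
      dd_pow hp]
    have hp0 : (p : ℝ) ≠ 0 := by exact_mod_cast hp.ne_zero
    push_cast
    rw [one_div, inv_pow]
    rcases eq_or_ne ((N : ℝ) * h) 0 with h0 | h0
    · rw [mul_assoc, h0]
      simp
    · have hN : (N : ℝ) ≠ 0 := left_ne_zero_of_mul h0
      have hh : (h : ℝ) ≠ 0 := right_ne_zero_of_mul h0
      field_simp
  · rw [if_neg H, if_neg H, if_neg (fun h => H (hiff.1 h))]
    simp

theorem GG_p {p h l : ℕ} (hp : p.Prime) (hpl : ¬ p ∣ l) (N : ℕ) :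
    GG h l (p * N) = 1 / (p : ℝ) * (GG h l N + GP p h l N) := by
  have h := GG_pow (h := h) hp hpl 1 N
  rw [pow_one, pow_one] at h
  rw [h]
  push_cast
  ring

theorem GP_p {p h l : ℕ} (hp : p.Prime) (hpl : ¬ p ∣ l) (N : ℕ) :
    GP p h l (p * N) = 1 / (p : ℝ) * GP p h l N := by
  have h1 := GG_p (h := h) hp hpl N
  have h2 := GG_p (h := h) hp hpl (p * N)
  have h3 := GG_pow (h := h) hp hpl 2 N
  have e : p ^ 2 * N = p * (p * N) := by ring
  rw [e, h2, h1] at h3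
  have hp0 : (p : ℝ) ≠ 0 := by exact_mod_cast hp.ne_zero
  field_simp at h3 ⊢
  push_cast at h3
  linarith

theorem GP_eq {p h l : ℕ} (hp : p.Prime) (hph : ¬ p ∣ h) {N : ℕ} (hN : ¬ p ∣ N) :
    GP p h l N = GG h l N := by
  unfold GP GG
  split_ifs with H
  · have h1 : ¬ p ∣ N * h / l := fun h2 => by
      have h3 : p ∣ N * h := h2.trans (Nat.div_dvd_of_dvd H)
      rcases (Nat.Prime.dvd_mul hp).1 h3 with h4 | h4
      · exact hN h4
      · exact hph h4
    rw [dd_two hp h1]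
    ring
  · rfl

theorem GG_bd {h l m n : ℕ} (hh : 1 ≤ h) (hl : 1 ≤ l) (hm : 1 ≤ m) (hn : 1 ≤ n) :
    |GG h l (m * n)| ≤ dd h * (dd m / m * (dd n / n)) := by
  have hh1 : (1 : ℝ) ≤ h := by exact_mod_cast hh
  have hm1 : (1 : ℝ) ≤ m := by exact_mod_cast hm
  have hn1 : (1 : ℝ) ≤ n := by exact_mod_cast hn
  have a1 := dd_nonneg h
  have a2 := dd_nonneg m
  have a3 := dd_nonneg n
  unfold GG
  split_ifs with H
  · have h1 : dd (m * n * h / l) ≤ dd m * dd n * dd h := by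
      refine (dd_dvd (by positivity) (Nat.div_dvd_of_dvd H)).trans ?_
      refine (dd_mul_le _ _).trans ?_
      exact mul_le_mul_of_nonneg_right (dd_mul_le m n) a1
    rw [abs_of_nonneg (div_nonneg (dd_nonneg _) (by positivity))]
    push_cast
    calc dd (m * n * h / l) / ((m : ℝ) * n * h) ≤ (dd m * dd n * dd h) / ((m : ℝ) * n) := by
          refine div_le_div₀ (by positivity) h1 (by positivity) ?_
          exact le_mul_of_one_le_right (by positivity) hh1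
      _ = _ := by
          field_simp
  · rw [abs_zero]
    positivity

theorem GP_bd {p h l m n : ℕ} (hp : p.Prime) (hh : 1 ≤ h) (hl : 1 ≤ l) (hm : 1 ≤ m) (hn : 1 ≤ n) :
    |GP p h l (m * n)| ≤ dd h * (dd m / m * (dd n / n)) := by
  refine le_trans ?_ (GG_bd (l := l) hh hl hm hn)
  unfold GP GG
  split_ifs with H
  · rw [abs_div, abs_div]
    refine div_le_div_of_nonneg_right ?_ (abs_nonneg _)
    have h0 : 0 < m * n * h / l := Nat.div_pos (Nat.le_of_dvd (by positivity) H) hl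
    have h1 : dd (m * n * h / l) ≤ dd (p * (m * n * h / l)) :=
      dd_dvd (Nat.mul_ne_zero hp.ne_zero h0.ne') (dvd_mul_left _ _)
    have h2 := dd_mul_le p (m * n * h / l)
    rw [dd_prime hp] at h2
    rw [abs_of_nonneg (by linarith), abs_of_nonneg (dd_nonneg _)]
    linarith
  · exact le_rfl

theorem Bd.ite {a : ℕ → ℕ → ℝ} (ha : Bd a) (P : ℕ → ℕ → Prop) [∀ m n, Decidable (P m n)] :
    Bd (fun m n => if P m n then 0 else a m n) := by
  obtain ⟨C, hC, ha⟩ := ha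
  refine ⟨C, hC, fun m n hm hn => ?_⟩
  show |if P m n then 0 else a m n| ≤ _
  split_ifs
  · rw [abs_zero]
    have a2 := dd_nonneg m
    have a3 := dd_nonneg n
    positivity
  · exact ha m n hm hn

/-- the two basic relations -/
theorem core {K : ℝ} (hK : 0 ≤ K) {p h l : ℕ} (hh : 1 ≤ h) (hl : 1 ≤ l) (hp : p.Prime)
    (hph : ¬ p ∣ h) (hpl : ¬ p ∣ l) :
    SU (fun m n => GP p h l (m * n)) - (((p : ℝ) - 1) / (p + 1)) • SU (fun m n => GG h l (m * n)) ∈ OO K ∧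
    SU (fun m n => if p ∣ m then 0 else GG h l (m * n)) -
      (((p : ℝ) - 1) / (p + 1)) • SU (fun m n => GG h l (m * n)) ∈ OO K := by
  have hp1 : 1 ≤ p := hp.one_le
  have hp2 : (2 : ℝ) ≤ p := by exact_mod_cast hp.two_le
  have bG : Bd (fun m n => GG h l (m * n)) := ⟨dd h, dd_nonneg h, fun m n hm hn => GG_bd hh hl hm hn⟩
  have bP : Bd (fun m n => GP p h l (m * n)) :=
    ⟨dd h, dd_nonneg h, fun m n hm hn => GP_bd hp hh hl hm hn⟩
  obtain ⟨S, hS⟩ : ∃ S, S = SU (fun m n => GG h l (m * n)) := ⟨_, rfl⟩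
  obtain ⟨E, hE⟩ : ∃ E, E = SU (fun m n => GP p h l (m * n)) := ⟨_, rfl⟩
  obtain ⟨S1, hS1⟩ : ∃ S1, S1 = SU (fun m n => if p ∣ m then 0 else GG h l (m * n)) := ⟨_, rfl⟩
  obtain ⟨E1, hE1⟩ : ∃ E1, E1 = SU (fun m n => if p ∣ m then 0 else GP p h l (m * n)) := ⟨_, rfl⟩
  obtain ⟨B, hB⟩ : ∃ B, B = SU (fun m n => if p ∣ n then 0 else
    (if p ∣ m then 0 else GG h l (m * n))) := ⟨_, rfl⟩
  have q1 := shift1 hK hp1 bG
  have q2 := shift1 hK hp1 bP
  have q3 := shift2 hK hp1 (bG.ite (fun m _ => p ∣ m))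
  have q4 := shift2 hK hp1 (bP.ite (fun m _ => p ∣ m))
  have r1 : SU (fun m n => GG h l (p * m * n)) = (1 / (p : ℝ)) • (S + E) := by
    rw [hS, hE, ← SU_add, ← SU_smul]
    refine SU_congr fun m n _ _ => ?_
    rw [mul_assoc, GG_p hp hpl]
  have r2 : SU (fun m n => GP p h l (p * m * n)) = (1 / (p : ℝ)) • E := by
    rw [hE, ← SU_smul]
    refine SU_congr fun m n _ _ => ?_
    rw [mul_assoc, GP_p hp hpl]
  have r3 : SU (fun m n => if p ∣ m then 0 else GG h l (m * (p * n))) = (1 / (p : ℝ)) • (S1 + E1) := by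
    rw [hS1, hE1, ← SU_add, ← SU_smul]
    refine SU_congr fun m n _ _ => ?_
    have e : m * (p * n) = p * (m * n) := by ring
    rw [e, GG_p hp hpl]
    split_ifs
    · simp
    · rfl
  have r4 : SU (fun m n => if p ∣ m then 0 else GP p h l (m * (p * n))) = (1 / (p : ℝ)) • E1 := by
    rw [hE1, ← SU_smul]
    refine SU_congr fun m n _ _ => ?_
    have e : m * (p * n) = p * (m * n) := by ring
    rw [e, GP_p hp hpl]
    split_ifs
    · simp
    · rfl
  have r5 : SU (fun m n => if p ∣ n then 0 else (if p ∣ m then 0 else GP p h l (m * n))) = B := by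
    rw [hB]
    refine SU_congr fun m n _ _ => ?_
    by_cases h1 : p ∣ n
    · rw [if_pos h1, if_pos h1]
    · by_cases h2 : p ∣ m
      · rw [if_neg h1, if_neg h1, if_pos h2, if_pos h2]
      · rw [if_neg h1, if_neg h1, if_neg h2, if_neg h2]
        refine GP_eq hp hph fun h3 => ?_
        rcases (Nat.Prime.dvd_mul hp).1 h3 with h4 | h4
        · exact h2 h4
        · exact h1 h4
  rw [r1, ← hS, ← hS1] at q1
  rw [r2, ← hE, ← hE1] at q2
  rw [r3, ← hS1, ← hB] at q3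
  rw [r4, ← hE1, r5] at q4
  rw [← hS, ← hE, ← hS1]
  have t1 : S1 - E ∈ OO K := by
    have h1 : S1 - E = ((p : ℝ) / (p - 1)) • ((S1 - B - (1 / (p : ℝ)) • (S1 + E1)) -
        (E1 - B - (1 / (p : ℝ)) • E1) - (E - E1 - (1 / (p : ℝ)) • E)) := by
      funext D
      simp only [Pi.sub_apply, Pi.smul_apply, Pi.add_apply, smul_eq_mul]
      have h2 : (p : ℝ) - 1 ≠ 0 := by linarith
      field_simp
      ring
    rw [h1]
    exact (OO K).smul_mem _ ((OO K).sub_mem ((OO K).sub_mem q3 q4) q2)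
  have t2 : E - (((p : ℝ) - 1) / (p + 1)) • S ∈ OO K := by
    have h1 : E - (((p : ℝ) - 1) / (p + 1)) • S = (-((p : ℝ) / (p + 1))) •
        ((S - S1 - (1 / (p : ℝ)) • (S + E)) + (S1 - E)) := by
      funext D
      simp only [Pi.sub_apply, Pi.smul_apply, Pi.add_apply, smul_eq_mul]
      have h2 : (p : ℝ) + 1 ≠ 0 := by linarith
      field_simp
      ring
    rw [h1]
    exact (OO K).smul_mem _ ((OO K).add_mem q1 t1)
  refine ⟨t2, ?_⟩
  have h1 : S1 - (((p : ℝ) - 1) / (p + 1)) • S = (S1 - E) + (E - (((p : ℝ) - 1) / (p + 1)) • S) := by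
    abel
  rw [h1]
  exact (OO K).add_mem t1 t2

/-- a prime power in `h` -/
theorem step1 {K : ℝ} (hK : 0 ≤ K) {p h l : ℕ} (hh : 1 ≤ h) (hl : 1 ≤ l) (hp : p.Prime)
    (hph : ¬ p ∣ h) (hpl : ¬ p ∣ l) (a : ℕ) :
    SU (fun m n => GG (p ^ a * h) l (m * n)) -
      ((1 / (p : ℝ)) ^ a * (1 + a * (((p : ℝ) - 1) / (p + 1)))) • SU (fun m n => GG h l (m * n)) ∈
      OO K := by
  have h1 := (core hK hh hl hp hph hpl).1
  have h2 : SU (fun m n => GG (p ^ a * h) l (m * n)) =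
      ((1 / (p : ℝ)) ^ a) • (SU (fun m n => GG h l (m * n)) + (a : ℝ) • SU (fun m n => GP p h l (m * n))) := by
    rw [← SU_smul, ← SU_add, ← SU_smul]
    refine SU_congr fun m n _ _ => ?_
    rw [← GG_pow hp hpl]
    unfold GG
    have e1 : m * n * (p ^ a * h) = p ^ a * (m * n) * h := by ring
    rw [e1]
    have e2 : ((m * n : ℕ) : ℝ) * ((p ^ a * h : ℕ) : ℝ) = ((p ^ a * (m * n) : ℕ) : ℝ) * (h : ℝ) := by
      push_cast
      ring
    rw [e2]
  have h3 : SU (fun m n => GG (p ^ a * h) l (m * n)) -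
      ((1 / (p : ℝ)) ^ a * (1 + a * (((p : ℝ) - 1) / (p + 1)))) • SU (fun m n => GG h l (m * n)) =
      ((1 / (p : ℝ)) ^ a * a) • (SU (fun m n => GP p h l (m * n)) -
        (((p : ℝ) - 1) / (p + 1)) • SU (fun m n => GG h l (m * n))) := by
    rw [h2]
    funext D
    simp only [Pi.sub_apply, Pi.smul_apply, Pi.add_apply, smul_eq_mul]
    ring
  rw [h3]
  exact (OO K).smul_mem _ h1

theorem GGb_p {p h l : ℕ} (hp : p.Prime) (b N : ℕ) :
    GG h (p ^ (b + 1) * l) (p * N) = 1 / (p : ℝ) * GG h (p ^ b * l) N := by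
  unfold GG
  have e1 : p * N * h = p * (N * h) := by ring
  have e2 : p ^ (b + 1) * l = p * (p ^ b * l) := by rw [pow_succ]; ring
  rw [e1, e2, Nat.mul_div_mul_left _ _ hp.pos]
  have hiff : p * (p ^ b * l) ∣ p * (N * h) ↔ p ^ b * l ∣ N * h := Nat.mul_dvd_mul_iff_left hp.pos
  by_cases H : p ^ b * l ∣ N * h
  · rw [if_pos H, if_pos (hiff.2 H)]
    push_cast
    rw [mul_assoc, div_mul_div_comm, one_mul]
  · rw [if_neg H, if_neg (fun h => H (hiff.1 h)), mul_zero]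

theorem GGb_zero {p h l : ℕ} (hp : p.Prime) (hph : ¬ p ∣ h) (b : ℕ) {N : ℕ} (hN : ¬ p ∣ N) :
    GG h (p ^ (b + 1) * l) N = 0 := by
  unfold GG
  refine if_neg fun H => ?_
  have h1 : p ∣ N * h := by
    refine Dvd.dvd.trans ?_ H
    rw [pow_succ]
    exact ⟨p ^ b * l, by ring⟩
  rcases (Nat.Prime.dvd_mul hp).1 h1 with h4 | h4
  · exact hN h4
  · exact hph h4

/-- a prime power in `l` -/
theorem step2 {K : ℝ} (hK : 0 ≤ K) {p h l : ℕ} (hh : 1 ≤ h) (hl : 1 ≤ l) (hp : p.Prime)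
    (hph : ¬ p ∣ h) (hpl : ¬ p ∣ l) (b : ℕ) :
    SU (fun m n => GG h (p ^ b * l) (m * n)) -
      ((1 / (p : ℝ)) ^ b * (1 + b * (((p : ℝ) - 1) / (p + 1)))) • SU (fun m n => GG h l (m * n)) ∈
      OO K := by
  have hp1 : 1 ≤ p := hp.one_le
  have bG : ∀ b, Bd (fun m n => GG h (p ^ b * l) (m * n)) := fun b =>
    ⟨dd h, dd_nonneg h, fun m n hm hn => GG_bd hh (Nat.mul_pos (pow_pos hp.pos b) hl) hm hn⟩
  -- the part prime to `p`
  have k1 : ∀ b : ℕ, SU (fun m n => if p ∣ m then 0 else GG h (p ^ b * l) (m * n)) -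
      ((1 / (p : ℝ)) ^ b) • SU (fun m n => if p ∣ m then 0 else GG h l (m * n)) ∈ OO K := by
    intro b
    induction b with
    | zero =>
      simp only [pow_zero, one_mul, one_smul, sub_self]
      exact (OO K).zero_mem
    | succ b ih =>
      have q := shift2 hK hp1 ((bG (b + 1)).ite (fun m _ => p ∣ m))
      have r1 : SU (fun m n => if p ∣ m then 0 else GG h (p ^ (b + 1) * l) (m * (p * n))) =
          (1 / (p : ℝ)) • SU (fun m n => if p ∣ m then 0 else GG h (p ^ b * l) (m * n)) := by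
        rw [← SU_smul]
        refine SU_congr fun m n _ _ => ?_
        have e : m * (p * n) = p * (m * n) := by ring
        rw [e, GGb_p hp]
        split_ifs
        · simp
        · rfl
      have r2 : SU (fun m n => if p ∣ n then 0 else
          (if p ∣ m then 0 else GG h (p ^ (b + 1) * l) (m * n))) = 0 := by
        have e : SU (fun _ _ => (0 : ℝ)) = 0 := by
          funext D
          simp [SU]
        rw [← e]
        refine SU_congr fun m n _ _ => ?_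
        by_cases h1 : p ∣ n
        · rw [if_pos h1]
        · by_cases h2 : p ∣ m
          · rw [if_neg h1, if_pos h2]
          · rw [if_neg h1, if_neg h2]
            refine GGb_zero hp hph b fun h3 => ?_
            rcases (Nat.Prime.dvd_mul hp).1 h3 with h4 | h4
            · exact h2 h4
            · exact h1 h4
      rw [r1, r2, sub_zero] at q
      have h3 := (OO K).add_mem q ((OO K).smul_mem (1 / (p : ℝ)) ih)
      convert h3 using 1
      funext D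
      simp only [Pi.sub_apply, Pi.smul_apply, Pi.add_apply, smul_eq_mul]
      rw [pow_succ]
      ring
  induction b with
  | zero =>
    simp only [pow_zero, one_mul, Nat.cast_zero, zero_mul, add_zero, one_smul, sub_self]
    exact (OO K).zero_mem
  | succ b ih =>
    have q := shift1 hK hp1 (bG (b + 1))
    have r1 : SU (fun m n => GG h (p ^ (b + 1) * l) (p * m * n)) =
        (1 / (p : ℝ)) • SU (fun m n => GG h (p ^ b * l) (m * n)) := by
      rw [← SU_smul]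
      refine SU_congr fun m n _ _ => ?_
      rw [mul_assoc, GGb_p hp]
    rw [r1] at q
    have h3 := (OO K).add_mem ((OO K).add_mem q ((OO K).smul_mem (1 / (p : ℝ)) ih)) ((OO K).add_mem
      (k1 (b + 1)) ((OO K).smul_mem ((1 / (p : ℝ)) ^ (b + 1)) (core hK hh hl hp hph hpl).2))
    convert h3 using 1
    funext D
    simp only [Pi.sub_apply, Pi.smul_apply, Pi.add_apply, smul_eq_mul]
    push_cast
    rw [pow_succ]
    ring

/-! ### the weights -/

theorem w2_symm (h l : ℕ) : w2 (h, l) = w2 (l, h) := by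
  unfold w2 Pool.Agent.W184.NZ.w1
  simp only
  rw [Nat.gcd_comm, mul_comm (h : ℝ) l, mul_comm h l]
  congr 1
  refine prod_congr rfl fun q _ => ?_
  rw [← Int.natAbs_neg, neg_sub]

theorem w2_h {p h l a : ℕ} (hp : p.Prime) (ha : a ≠ 0) (hh : h ≠ 0) (hl : l ≠ 0) (hph : ¬ p ∣ h)
    (hpl : ¬ p ∣ l) :
    w2 (p ^ a * h, l) = ((1 / (p : ℝ)) ^ a * (1 + a * (((p : ℝ) - 1) / (p + 1)))) * w2 (h, l) := by
  classical
  have hpa : p ^ a ≠ 0 := pow_ne_zero _ hp.ne_zero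
  have h1 : (p ^ a * h * l).primeFactors = insert p (h * l).primeFactors := by
    rw [mul_assoc, Nat.primeFactors_mul hpa (Nat.mul_ne_zero hh hl), Nat.primeFactors_prime_pow ha hp]
    rfl
  have h2 : p ∉ (h * l).primeFactors := fun H => by
    rcases (Nat.Prime.dvd_mul hp).1 (Nat.dvd_of_mem_primeFactors H) with h3 | h3
    · exact hph h3
    · exact hpl h3
  have hc : Nat.Coprime (p ^ a) l := Nat.Coprime.pow_left _ ((Nat.Prime.coprime_iff_not_dvd hp).2 hpl)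
  have h3 : Nat.gcd (p ^ a * h) l = Nat.gcd h l := Nat.Coprime.gcd_mul_left_cancel h hc
  have hfac : ∀ q, (p ^ a * h).factorization q = (if p = q then a else 0) + h.factorization q := by
    intro q
    rw [Nat.factorization_mul hpa hh, hp.factorization_pow, Finsupp.add_apply, Finsupp.single_apply]
  unfold w2 Pool.Agent.W184.NZ.w1
  simp only
  rw [h1, prod_insert h2, h3]
  have h4 : ∏ q ∈ (h * l).primeFactors,
      (1 + ((((p ^ a * h).factorization q : ℤ) - l.factorization q).natAbs : ℝ) *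
        (((q:ℝ) - 1) / ((q:ℝ) + 1))) = ∏ q ∈ (h * l).primeFactors,
      (1 + (((h.factorization q : ℤ) - l.factorization q).natAbs : ℝ) *
        (((q:ℝ) - 1) / ((q:ℝ) + 1))) := by
    refine prod_congr rfl fun q hq => ?_
    have hqp : p ≠ q := fun e => h2 (e ▸ hq)
    rw [hfac q, if_neg hqp, zero_add]
  rw [h4]
  have h5 : (((p ^ a * h).factorization p : ℤ) - l.factorization p).natAbs = a := by
    rw [hfac p, if_pos rfl, Nat.factorization_eq_zero_of_not_dvd hph,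
      Nat.factorization_eq_zero_of_not_dvd hpl]
    simp
  rw [h5]
  have hp0 : (p : ℝ) ≠ 0 := by exact_mod_cast hp.ne_zero
  have hh0 : (h : ℝ) ≠ 0 := by exact_mod_cast hh
  have hl0 : (l : ℝ) ≠ 0 := by exact_mod_cast hl
  obtain ⟨P, hP⟩ : ∃ P, P = ∏ q ∈ (h * l).primeFactors,
      (1 + (((h.factorization q : ℤ) - l.factorization q).natAbs : ℝ) *
        (((q:ℝ) - 1) / ((q:ℝ) + 1))) := ⟨_, rfl⟩
  rw [← hP]
  push_cast
  rw [one_div, inv_pow]
  have h6 : (p : ℝ) + 1 ≠ 0 := by positivity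
  field_simp

theorem w2_one : w2 (1, 1) = 1 := by
  unfold w2 Pool.Agent.W184.NZ.w1
  simp

theorem decomp {h : ℕ} (hh : 1 < h) : ∃ p a h0 : ℕ, p.Prime ∧ a ≠ 0 ∧ ¬ p ∣ h0 ∧ h = p ^ a * h0 ∧ h0 < h ∧
    1 ≤ h0 ∧ p ∣ h := by
  have hp : (h.minFac).Prime := Nat.minFac_prime hh.ne'
  obtain ⟨a, h0, hp0, e⟩ := Nat.exists_eq_pow_mul_and_not_dvd (show h ≠ 0 by omega) h.minFac hp.ne_one
  have ha : a ≠ 0 := fun ha => by
    rw [ha, pow_zero, one_mul] at e
    exact hp0 (e ▸ Nat.minFac_dvd h)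
  have h1 : 1 ≤ h0 := Nat.pos_of_ne_zero fun h => hp0 (h ▸ dvd_zero _)
  have h2 : h0 < h := by
    have h3 : 1 < h.minFac ^ a := Nat.one_lt_pow ha hp.one_lt
    calc h0 = 1 * h0 := (one_mul _).symm
      _ < h.minFac ^ a * h0 := Nat.mul_lt_mul_of_pos_right h3 h1
      _ = h := e.symm
  exact ⟨h.minFac, a, h0, hp, ha, hp0, e, h2, h1, Nat.minFac_dvd h⟩

theorem claim_l {K : ℝ} (hK : 0 ≤ K) (l : ℕ) (hl : 1 ≤ l) :
    SU (fun m n => GG 1 l (m * n)) - w2 (1, l) • SU (fun m n => GG 1 1 (m * n)) ∈ OO K := by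
  induction l using Nat.strong_induction_on with
  | _ l ih =>
    rcases Nat.eq_or_lt_of_le hl with h1 | h1
    · rw [← h1, w2_one, one_smul, sub_self]
      exact (OO K).zero_mem
    · obtain ⟨p, b, l0, hp, hb, hpl, e, hlt, hl0, -⟩ := decomp h1
      have hp1 : ¬ p ∣ 1 := fun h => hp.one_lt.not_ge (Nat.le_of_dvd one_pos h)
      have h2 := ih l0 hlt hl0
      have h3 := step2 hK le_rfl hl0 hp hp1 hpl b
      rw [e, w2_symm, w2_h hp hb (by omega) one_ne_zero hpl hp1, w2_symm]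
      have h4 := (OO K).add_mem h3 ((OO K).smul_mem
        ((1 / (p : ℝ)) ^ b * (1 + b * (((p : ℝ) - 1) / (p + 1)))) h2)
      convert h4 using 1
      funext D
      simp only [Pi.sub_apply, Pi.smul_apply, Pi.add_apply, smul_eq_mul]
      ring

theorem claim {K : ℝ} (hK : 0 ≤ K) (h l : ℕ) (hh : 1 ≤ h) (hl : 1 ≤ l) (hc : Nat.Coprime h l) :
    SU (fun m n => GG h l (m * n)) - w2 (h, l) • SU (fun m n => GG 1 1 (m * n)) ∈ OO K := by
  induction h using Nat.strong_induction_on with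
  | _ h ih =>
    rcases Nat.eq_or_lt_of_le hh with h1 | h1
    · rw [← h1]
      exact claim_l hK l hl
    · obtain ⟨p, a, h0, hp, ha, hph, e, hlt, hh0, hdvd⟩ := decomp h1
      have hpl : ¬ p ∣ l := fun h2 => hp.one_lt.ne' (Nat.eq_one_of_dvd_coprimes hc hdvd h2)
      have hc' : Nat.Coprime h0 l := Nat.Coprime.coprime_dvd_left (e ▸ dvd_mul_left _ _) hc
      have h2 := ih h0 hlt hh0 hc'
      have h3 := step1 hK hh0 hl hp hph hpl a
      rw [e, w2_h hp ha (by omega) (by omega) hph hpl]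
      have h4 := (OO K).add_mem h3 ((OO K).smul_mem
        ((1 / (p : ℝ)) ^ a * (1 + a * (((p : ℝ) - 1) / (p + 1)))) h2)
      convert h4 using 1
      funext D
      simp only [Pi.sub_apply, Pi.smul_apply, Pi.add_apply, smul_eq_mul]
      ring

/-- A1 -/
theorem t_A1 : S_A1 := by
  intro h l hh hl hc K hK
  obtain ⟨C, hC, H⟩ := mem_OO.1 (claim hK.le h l hh hl hc)
  refine ⟨C + 1, by linarith, fun M L f g hM hL hML hf hg => ?_⟩
  have h1 := H ⟨M, L, f, g⟩ ⟨hM, hL, hML, hf, hg⟩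
  have e1 : SU (fun m n => GG h l (m * n)) ⟨M, L, f, g⟩ =
      ∑ m ∈ Icc 1 M, ∑ n ∈ Icc 1 M, f m * g n * (if l ∣ m * n * h then
      ((m * n * h / l).divisors.card : ℝ) / ((m : ℝ) * n * h) else 0) := by
    unfold SU
    refine sum_congr rfl fun m _ => sum_congr rfl fun n _ => ?_
    unfold GG dd
    push_cast
    rfl
  have e2 : SU (fun m n => GG 1 1 (m * n)) ⟨M, L, f, g⟩ =
      ∑ m ∈ Icc 1 M, ∑ n ∈ Icc 1 M, f m * g n * (((m * n).divisors.card : ℝ) / ((m : ℝ) * n)) := by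
    unfold SU
    refine sum_congr rfl fun m _ => sum_congr rfl fun n _ => ?_
    have e3 : GG 1 1 (m * n) = ((m * n).divisors.card : ℝ) / ((m : ℝ) * n) := by
      unfold GG dd
      rw [if_pos (one_dvd _), mul_one, Nat.div_one]
      push_cast
      rw [mul_one]
    show f m * g n * GG 1 1 (m * n) = _
    rw [e3]
  rw [Pi.sub_apply, Pi.smul_apply, smul_eq_mul, e1, e2] at h1
  have hL3 : 0 ≤ L ^ 3 := by positivity
  linarith

end

end Pool.Agent.Y901.SX
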